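import Pool.Agent.V11189.CoSober

set_option autoImplicit false

open Set Topology
open Pool.Agent.V11189.AntiHausdorff Pool.Agent.V11189.CoSober

namespace Pool.Agent.Results.MP_1ae613_gt.KernelImage

/-- The space: countably many levels over the anti-Hausdorff compact space `Z`. -/
def Y : Type := Z × ℕ

instance : TopologicalSpace Y where
  IsOpen O := (∀ (z : Z) (n m : ℕ), n ≤ m → ((z, n) : Z × ℕ) ∈ (O : Set (Z × ℕ)) →
      ((z, m) : Z × ℕ) ∈ (O : Set (Z × ℕ))) ∧
    ∀ (z : Z) (n : ℕ), ((z, n) : Z × ℕ) ∈ (O : Set (Z × ℕ)) →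
      ∃ W : Set Z, IsOpen W ∧ z ∈ W ∧ {q : Z × ℕ | q.1 ∈ W ∧ q ∉ (O : Set (Z × ℕ))}.Finite
  isOpen_univ := by
    refine ⟨fun _ _ _ _ _ => trivial, fun z n _ => ⟨univ, isOpen_univ, trivial, ?_⟩⟩
    refine finite_empty.subset ?_
    rintro q ⟨_, hq⟩
    exact hq trivial
  isOpen_inter := by
    rintro O P ⟨hO1, hO2⟩ ⟨hP1, hP2⟩
    refine ⟨fun z n m hnm h => ⟨hO1 z n m hnm h.1, hP1 z n m hnm h.2⟩, fun z n h => ?_⟩
    obtain ⟨W, hW, hzW, hfW⟩ := hO2 z n h.1
    obtain ⟨V, hV, hzV, hfV⟩ := hP2 z n h.2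
    refine ⟨W ∩ V, hW.inter hV, ⟨hzW, hzV⟩, (hfW.union hfV).subset ?_⟩
    rintro q ⟨⟨hqW, hqV⟩, hq⟩
    by_cases hqO : q ∈ (O : Set (Z × ℕ))
    · exact Or.inr ⟨hqV, fun h' => hq ⟨hqO, h'⟩⟩
    · exact Or.inl ⟨hqW, hqO⟩
  isOpen_sUnion := by
    intro T hT
    constructor
    · rintro z n m hnm ⟨O, hO, h⟩
      exact ⟨O, hO, (hT O hO).1 z n m hnm h⟩
    · rintro z n ⟨O, hO, h⟩
      obtain ⟨W, hW, hzW, hf⟩ := (hT O hO).2 z n h
      refine ⟨W, hW, hzW, hf.subset ?_⟩
      rintro q ⟨hqW, hq⟩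
      exact ⟨hqW, fun h' => hq ⟨O, hO, h'⟩⟩

theorem isOpen_Y {O : Set Y} : IsOpen O ↔
    (∀ (z : Z) (n m : ℕ), n ≤ m → ((z, n) : Z × ℕ) ∈ (O : Set (Z × ℕ)) →
      ((z, m) : Z × ℕ) ∈ (O : Set (Z × ℕ))) ∧
    ∀ (z : Z) (n : ℕ), ((z, n) : Z × ℕ) ∈ (O : Set (Z × ℕ)) →
      ∃ W : Set Z, IsOpen W ∧ z ∈ W ∧ {q : Z × ℕ | q.1 ∈ W ∧ q ∉ (O : Set (Z × ℕ))}.Finite :=
  Iff.rfl

/-- Constructor for points of `Y`. -/
def pt (z : Z) (n : ℕ) : Y := (z, n)

theorem isOpen_compl_down (w : Z) (m : ℕ) :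
    IsOpen {q : Y | ¬ ((q : Z × ℕ).1 = w ∧ (q : Z × ℕ).2 ≤ m)} := by
  rw [isOpen_Y]
  constructor
  · rintro z n k hnk h ⟨h1, h2⟩
    exact h ⟨h1, le_trans hnk h2⟩
  · intro z n _
    refine ⟨univ, isOpen_univ, trivial, ?_⟩
    refine ((finite_Iic m).image fun k => ((w, k) : Z × ℕ)).subset ?_
    rintro ⟨a, k⟩ ⟨_, hq⟩
    have hq' : a = w ∧ k ≤ m := by
      by_contra hcon
      exact hq hcon
    exact ⟨k, hq'.2, by rw [hq'.1]⟩

theorem le_Y {z w : Z} {n m : ℕ} : Le (pt z n) (pt w m) ↔ z = w ∧ n ≤ m := by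
  rw [le_iff]
  constructor
  · intro h
    by_contra hcon
    have := h _ (isOpen_compl_down w m) hcon
    exact this ⟨rfl, le_refl m⟩
  · rintro ⟨rfl, hnm⟩ U hU hz
    exact (isOpen_Y.1 hU).1 z n m hnm hz

/-- The projection to `Z`. -/
def pr (q : Y) : Z := (q : Z × ℕ).1

theorem continuous_pr : Continuous pr := by
  rw [continuous_def]
  intro W hW
  rw [isOpen_Y]
  refine ⟨fun z n m _ h => h, fun z n h => ⟨W, hW, h, ?_⟩⟩
  refine finite_empty.subset ?_
  rintro q ⟨h1, h2⟩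
  exact h2 h1

/-- A subset of `Y` is compact if its projection is compact. -/
theorem isCompact_of_pr {K : Set Y} (hK : IsCompact (pr '' K)) : IsCompact K := by
  classical
  apply isCompact_of_finite_subcover
  intro ι V hV hKV
  have hex : ∀ b : (pr '' K : Set Z), ∃ (j : ι) (W : Set Z), IsOpen W ∧ b.1 ∈ W ∧
      {q : Z × ℕ | q.1 ∈ W ∧ q ∉ (V j : Set (Z × ℕ))}.Finite := by
    rintro ⟨_, ⟨⟨z, n⟩, hq, rfl⟩⟩
    obtain ⟨j, hj⟩ := mem_iUnion.1 (hKV hq)
    obtain ⟨W, hW, hzW, hf⟩ := (isOpen_Y.1 (hV j)).2 z n hj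
    exact ⟨j, W, hW, hzW, hf⟩
  choose j W hW hbW hf using hex
  obtain ⟨t, ht⟩ := hK.elim_finite_subcover W hW (fun b hb => mem_iUnion.2 ⟨⟨b, hb⟩, hbW ⟨b, hb⟩⟩)
  have hrest : (K \ ⋃ b ∈ t, V (j b)).Finite := by
    refine (t.finite_toSet.biUnion (fun b _ => hf b)).subset ?_
    rintro q ⟨hqK, hq⟩
    have := ht ⟨q, hqK, rfl⟩
    rw [mem_iUnion₂] at this
    obtain ⟨b, hb, hqb⟩ := this
    rw [mem_iUnion₂]
    exact ⟨b, hb, hqb, fun hqV => hq (mem_iUnion₂.2 ⟨b, hb, hqV⟩)⟩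
  by_cases hne : Nonempty ι
  · have hex2 : ∀ q ∈ K \ ⋃ b ∈ t, V (j b), ∃ i, q ∈ V i := fun q hq => mem_iUnion.1 (hKV hq.1)
    choose! φ hφ using hex2
    refine ⟨t.image j ∪ hrest.toFinset.image φ, fun q hq => ?_⟩
    rw [mem_iUnion₂]
    by_cases hqt : q ∈ ⋃ b ∈ t, V (j b)
    · rw [mem_iUnion₂] at hqt
      obtain ⟨b, hb, hqb⟩ := hqt
      exact ⟨j b, Finset.mem_union_left _ (Finset.mem_image_of_mem _ hb), hqb⟩
    · exact ⟨φ q, Finset.mem_union_right _ (Finset.mem_image_of_mem _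
        (hrest.mem_toFinset.2 ⟨hq, hqt⟩)), hφ q ⟨hq, hqt⟩⟩
  · refine ⟨∅, fun q hq => ?_⟩
    obtain ⟨i, _⟩ := mem_iUnion.1 (hKV hq)
    exact absurd ⟨i⟩ hne

theorem isCoSober_Y : IsCoSober Y := by
  classical
  constructor
  · constructor
    rintro ⟨z, n⟩ ⟨w, m⟩ h
    have h1 : Le (pt z n) (pt w m) := le_iff.2 fun U hU h' =>
      (inseparable_iff_forall_isOpen.1 h U hU).1 h'
    have h2 : Le (pt w m) (pt z n) := le_iff.2 fun U hU h' =>
      (inseparable_iff_forall_isOpen.1 h U hU).2 h'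
    rw [le_Y] at h1 h2
    have h3 : z = w := h1.1
    have h4 : n = m := le_antisymm h1.2 h2.2
    rw [h3, h4]
  · intro G hG
    obtain ⟨⟨hGne, hGc, hGs⟩, hirr⟩ := hG
    rw [sat_iff] at hGs
    have hexn : ∃ n : ℕ, ∃ z : Z, pt z n ∈ G := by
      obtain ⟨⟨z, n⟩, hq⟩ := hGne
      exact ⟨n, z, hq⟩
    obtain ⟨a, ha⟩ := Nat.find_spec hexn
    set n := Nat.find hexn with hn
    have hmin : ∀ z k, pt z k ∈ G → n ≤ k := fun z k hk => Nat.find_min' hexn ⟨z, hk⟩
    refine ⟨pt a n, ?_⟩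
    have hsub : {y : Y | Le (pt a n) y} ⊆ G := fun y hy => hGs _ ha y hy
    have h1 : IsKSet {y : Y | Le (pt a n) y} := by
      refine ⟨⟨pt a n, le_refl' _⟩, ?_, ?_⟩
      · apply isCompact_of_pr
        refine (finite_singleton a).isCompact.of_isClosed_subset ?_ ?_
        · have : pr '' {y : Y | Le (pt a n) y} = {a} := by
            ext z
            constructor
            · rintro ⟨⟨w, m⟩, hw, rfl⟩
              exact (le_Y.1 (show Le (pt a n) (pt w m) from hw)).1.symm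
            · rintro rfl
              exact ⟨pt z n, le_refl' _, rfl⟩
          rw [this]
          exact isClosed_singleton
        · rintro _ ⟨⟨w, m⟩, hw, rfl⟩
          exact (le_Y.1 (show Le (pt a n) (pt w m) from hw)).1.symm
      · rw [sat_iff]
        rintro ⟨w, m⟩ hw ⟨w', m'⟩ hw'
        have e1 := le_Y.1 (show Le (pt a n) (pt w m) from hw)
        have e2 := le_Y.1 (show Le (pt w m) (pt w' m') from hw')
        show Le (pt a n) (pt w' m')
        rw [le_Y]
        exact ⟨e1.1.trans e2.1, e1.2.trans e2.2⟩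
    have hnext : pt a (n + 1) ∈ G := hsub (le_Y.2 ⟨rfl, Nat.le_succ n⟩)
    have hne : pt a (n + 1) ≠ pt a n := by
      intro h
      have : n + 1 = n := congrArg (fun q : Z × ℕ => q.2) h
      omega
    have h2 : IsKSet (G \ {pt a n}) := by
      refine ⟨⟨_, hnext, hne⟩, ?_, ?_⟩
      · apply isCompact_of_pr
        have : pr '' (G \ {pt a n}) = pr '' G := by
          apply Subset.antisymm (image_mono sdiff_subset)
          rintro _ ⟨q, hq, rfl⟩
          by_cases hqa : q = pt a n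
          · rw [hqa]
            exact ⟨pt a (n + 1), ⟨hnext, hne⟩, rfl⟩
          · exact ⟨q, ⟨hq, hqa⟩, rfl⟩
        rw [this]
        exact hGc.image continuous_pr
      · rw [sat_iff]
        rintro ⟨w, m⟩ ⟨hw, hwne⟩ ⟨w', m'⟩ hw'
        refine ⟨hGs _ hw _ hw', ?_⟩
        intro heq
        apply hwne
        have e2 := le_Y.1 (show Le (pt w m) (pt w' m') from hw')
        have e3 : w' = a := congrArg (fun q : Z × ℕ => q.1) heq
        have e4 : m' = n := congrArg (fun q : Z × ℕ => q.2) heq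
        have e5 := hmin w m hw
        have e6 : m = n := by omega
        have e7 : w = a := e2.1.trans e3
        show pt w m = pt a n
        rw [e6, e7]
    have hu : G = {y : Y | Le (pt a n) y} ∪ (G \ {pt a n}) := by
      apply Subset.antisymm
      · intro q hq
        by_cases hqa : q = pt a n
        · left
          rw [hqa]
          exact le_refl' _
        · exact Or.inr ⟨hq, hqa⟩
      · exact union_subset hsub sdiff_subset
    rcases hirr _ _ h1 h2 hu with h | h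
    · exact h
    · exfalso
      have : pt a n ∈ G := ha
      rw [h] at this
      exact this.2 rfl

/-- The kernel operator, the projection to the lowest level. -/
def ker (q : Y) : Y := pt (pr q) 0

theorem isOpen_level {O : Set Y} (hO : IsOpen O) : IsOpen {z : Z | pt z 0 ∈ O} := by
  rw [isOpen_iff_forall_mem_open]
  intro z hz
  obtain ⟨W, hW, hzW, hf⟩ := (isOpen_Y.1 hO).2 z 0 hz
  have hfin : {w : Z | w ∈ W ∧ pt w 0 ∉ O}.Finite := by
    have hinj : Function.Injective (fun w : Z => ((w, 0) : Z × ℕ)) := fun a b h =>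
      congrArg (fun q : Z × ℕ => q.1) h
    refine Set.Finite.of_finite_image (f := fun w : Z => ((w, 0) : Z × ℕ)) (hf.subset ?_) hinj.injOn
    rintro _ ⟨w, hw, rfl⟩
    exact hw
  refine ⟨W \ {w : Z | w ∈ W ∧ pt w 0 ∉ O}, ?_, hW.sdiff hfin.isClosed, ⟨hzW, fun h => h.2 hz⟩⟩
  rintro w ⟨hwW, hw⟩
  by_contra hcon
  exact hw ⟨hwW, hcon⟩

theorem continuous_ker : Continuous ker := by
  rw [continuous_def]
  intro O hO
  exact (isOpen_level hO).preimage continuous_pr

/-- **Images of continuous kernel operators on co-sober spaces need not be co-sober.** -/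
theorem result : ∃ (X : Type) (_ : TopologicalSpace X) (k : X → X), IsCoSober X ∧ Continuous k ∧
    (∀ x, Le (k x) x) ∧ (∀ x, k (k x) = k x) ∧ ¬ IsCoSober (range k) := by
  refine ⟨Y, inferInstance, ker, isCoSober_Y, continuous_ker, ?_, fun x => rfl, ?_⟩
  · rintro ⟨z, n⟩
    show Le (pt z 0) (pt z n)
    rw [le_Y]
    exact ⟨rfl, Nat.zero_le n⟩
  · rintro ⟨_, h⟩
    -- the homeomorphism with `Z`
    let ζ : Z → range ker := fun z => ⟨pt z 0, ⟨pt z 0, rfl⟩⟩
    have hζ : Continuous ζ := by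
      rw [continuous_def]
      intro O hO
      obtain ⟨P, hP, rfl⟩ := isOpen_induced_iff.1 hO
      exact isOpen_level hP
    have hζs : Function.Surjective ζ := by
      rintro ⟨_, ⟨q, rfl⟩⟩
      exact ⟨pr q, rfl⟩
    let π : range ker → Z := fun q => pr q.1
    have hπ : Continuous π := continuous_pr.comp continuous_subtype_val
    have hζπ : ∀ q, ζ (π q) = q := by
      rintro ⟨_, ⟨q, rfl⟩⟩
      rfl
    have hle : ∀ p q : range ker, Le p q → p = q := by
      intro p q hpq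
      have h1 : Le p.1 q.1 := by
        rw [le_iff] at hpq ⊢
        intro U hU hp
        exact hpq (Subtype.val ⁻¹' U) (hU.preimage continuous_subtype_val) hp
      obtain ⟨a, rfl⟩ := hζs p
      obtain ⟨b, rfl⟩ := hζs q
      have h2 : a = b := (le_Y.1 (show Le (pt a 0) (pt b 0) from h1)).1
      rw [h2]
    have hsat : ∀ A : Set (range ker), IsSat A := by
      intro A
      rw [sat_iff]
      intro x hx y hxy
      rwa [← hle x y hxy]
    have hG : IsKIrreducible (univ : Set (range ker)) := by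
      refine ⟨⟨⟨ζ (Classical.arbitrary Z), trivial⟩, ?_, hsat _⟩, ?_⟩
      · rw [← image_univ_of_surjective hζs]
        exact isCompact_univ.image hζ
      · intro K₁ K₂ h1 h2 hu
        have hun : π '' K₁ ∪ π '' K₂ = univ := by
          rw [← image_union, ← hu]
          rw [eq_univ_iff_forall]
          intro z
          exact ⟨ζ z, trivial, rfl⟩
        rcases not_union (h1.2.1.image hπ) (h2.2.1.image hπ) hun with h3 | h3
        · left
          symm
          rw [eq_univ_iff_forall]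
          intro q
          have : π q ∈ π '' K₁ := by rw [h3]; trivial
          obtain ⟨q', hq', hqq⟩ := this
          rw [← hζπ q, ← hqq, hζπ]
          exact hq'
        · right
          symm
          rw [eq_univ_iff_forall]
          intro q
          have : π q ∈ π '' K₂ := by rw [h3]; trivial
          obtain ⟨q', hq', hqq⟩ := this
          rw [← hζπ q, ← hqq, hζπ]
          exact hq'
    obtain ⟨k, hk⟩ := h _ hG
    obtain ⟨a, b, hab⟩ := exists_pair_ne Z
    have ha : k = ζ a := hle _ _ (by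
      have : ζ a ∈ {y | Le k y} := by rw [← hk]; trivial
      exact this)
    have hb : k = ζ b := hle _ _ (by
      have : ζ b ∈ {y | Le k y} := by rw [← hk]; trivial
      exact this)
    have hζab : ζ a = ζ b := ha.symm.trans hb
    exact hab (congrArg π hζab)

end Pool.Agent.Results.MP_1ae613_gt.KernelImage
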